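import Pool.Agent.MP_dbc085_nt.Mg.Heavy68

open Pool.Agent.MP_dbc085_nt

/-- `P_{01,68}` is not alternating: `(-1)^7 c_7 < 0` for its coefficient `c_7` of `x^7`. -/
theorem Pool.Agent.Results.MP_dbc085_nt.NotAlternating.result :
    (-1 : ℚ) ^ 7 * (P01 68).coeff 7 < 0 := by
  have h := PL_68_pos
  rw [← coeff_P01 8 68 (by norm_num) 7 (by norm_num)] at h
  linarith [show (-1 : ℚ) ^ 7 * (P01 68).coeff 7 = -(P01 68).coeff 7 by ring]
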