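import Pool.Agent.MP_dbc085_nt.Mg.Eval

open Pool.Agent.MP_dbc085_nt

/-- `P_{018}` is not convex: its second derivative is negative at the real point `x = 2`. -/
theorem Pool.Agent.Results.MP_dbc085_nt.NotConvex.result :
    Polynomial.aeval (2 : ℝ) (Polynomial.derivative (Polynomial.derivative (P01 8))) < 0 := by
  have h : PL id 8 = [0, -126818895872 / 4725, 13436458564352 / 212625, -120924132992 / 1701,
      22738039749968 / 382725, -4927314463552 / 127575, 5600196429752 / 273375,
      -8592789032 / 945, 434336118199 / 127575, -46169895248 / 42525, 561753373868 / 1913625,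
      -1713188896 / 25515, 27911282 / 2187, -2402512 / 1215, 6412 / 27, -184 / 9, 1] := by
    decide +kernel
  rw [P01_eq_toPoly 8 (by norm_num), h]
  simp only [toPoly, map_add, map_mul, Polynomial.derivative_mul, Polynomial.derivative_C,
    Polynomial.derivative_X, Polynomial.derivative_one, Polynomial.aeval_C, Polynomial.aeval_X,
    map_zero, map_one, eq_ratCast]
  norm_num
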